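import Pool.Agent.W2helper57.LD.Stm

/-!
# Piece IND of project LD: functions of disjoint sets of independent bits are independent
-/

set_option autoImplicit false

namespace Pool.Agent.W2helper17.LD

open Pool.Agent.W2helper57.LD

variable {ι κ : Type} [Fintype ι] [DecidableEq ι]

theorem total (w : ι → Bool → ℝ) (hw : ∀ i, w i true + w i false = 1) :
    ∑ ω : ι → Bool, ∏ i, w i (ω i) = 1 := by
  have h := Fintype.prod_sum (fun (i : ι) (b : Bool) => w i b)
  rw [← h]
  exact Finset.prod_eq_one fun i _ => by rw [Fintype.sum_bool]; exact hw i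

/-- the first word on `A`, the second one elsewhere -/
def mix (A : Finset ι) (q : (ι → Bool) × (ι → Bool)) : ι → Bool :=
  fun i => if i ∈ A then q.1 i else q.2 i

/-- exchange of the coordinates outside of `A` -/
def swp (A : Finset ι) : (ι → Bool) × (ι → Bool) ≃ (ι → Bool) × (ι → Bool) where
  toFun q := (mix A q, mix A q.swap)
  invFun q := (mix A q, mix A q.swap)
  left_inv q := by
    ext i <;> by_cases h : i ∈ A <;> simp [mix, h]
  right_inv q := by
    ext i <;> by_cases h : i ∈ A <;> simp [mix, h]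

theorem wt_swp (w : ι → Bool → ℝ) (A : Finset ι) (q : (ι → Bool) × (ι → Bool)) :
    (∏ i, w i ((swp A q).1 i)) * (∏ i, w i ((swp A q).2 i)) =
      (∏ i, w i (q.1 i)) * ∏ i, w i (q.2 i) := by
  rw [← Finset.prod_mul_distrib, ← Finset.prod_mul_distrib]
  refine Finset.prod_congr rfl fun i _ => ?_
  by_cases h : i ∈ A
  · simp [swp, mix, h]
  · simp [swp, mix, h, mul_comm]

theorem two (w : ι → Bool → ℝ) (hw : ∀ i, w i true + w i false = 1) (A : Finset ι)
    (F G : (ι → Bool) → ℝ) (hF : ∀ ω ω' : ι → Bool, (∀ i ∈ A, ω i = ω' i) → F ω = F ω')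
    (hG : ∀ ω ω' : ι → Bool, (∀ i, i ∉ A → ω i = ω' i) → G ω = G ω') :
    Ew w (fun ω => F ω * G ω) = Ew w F * Ew w G := by
  have h1 : Ew w F * Ew w G = ∑ q : (ι → Bool) × (ι → Bool),
      ((∏ i, w i (q.1 i)) * ∏ i, w i (q.2 i)) * (F q.1 * G q.2) := by
    unfold Ew
    rw [Finset.sum_mul_sum, Fintype.sum_prod_type]
    refine Finset.sum_congr rfl fun a _ => Finset.sum_congr rfl fun b _ => ?_
    ring
  have h2 : Ew w (fun ω => F ω * G ω) = ∑ q : (ι → Bool) × (ι → Bool),
      ((∏ i, w i (q.1 i)) * ∏ i, w i (q.2 i)) * (F q.1 * G q.1) := by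
    have h3 : Ew w (fun ω => F ω * G ω) =
        Ew w (fun ω => F ω * G ω) * ∑ ω : ι → Bool, ∏ i, w i (ω i) := by
      rw [total w hw, mul_one]
    rw [h3]
    unfold Ew
    rw [Finset.sum_mul_sum, Fintype.sum_prod_type]
    refine Finset.sum_congr rfl fun a _ => Finset.sum_congr rfl fun b _ => ?_
    ring
  rw [h1, h2]
  refine (Fintype.sum_equiv (swp A) _ _ fun q => ?_).symm
  rw [wt_swp w A q]
  congr 1
  have h3 : F (swp A q).1 = F q.1 := hF _ _ fun i hi => by simp [swp, mix, hi]
  have h4 : G (swp A q).1 = G q.2 := hG _ _ fun i hi => by simp [swp, mix, hi]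
  rw [h3, h4]

theorem main : S_IND := by
  intro ι κ _ _ _ w hw B
  induction B using Finset.induction_on with
  | empty =>
    intro I _ G _
    simp only [Finset.prod_empty]
    unfold Ew
    simp only [mul_one]
    exact total w hw
  | insert a B ha ih =>
    intro I hI G hG
    have h1 := ih I (fun x hx y hy => hI x (Finset.mem_insert_of_mem hx) y
      (Finset.mem_insert_of_mem hy)) G (fun x hx => hG x (Finset.mem_insert_of_mem hx))
    simp only [Finset.prod_insert ha]
    rw [← h1]
    refine two w hw (I a) (G a) (fun ω => ∏ x ∈ B, G x ω) (hG a (Finset.mem_insert_self _ _)) ?_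
    intro ω ω' h
    refine Finset.prod_congr rfl fun x hx => ?_
    refine hG x (Finset.mem_insert_of_mem hx) ω ω' fun i hi => h i fun hia => ?_
    have h2 := hI x (Finset.mem_insert_of_mem hx) a (Finset.mem_insert_self _ _)
      (fun h => ha (h ▸ hx))
    exact Finset.disjoint_left.1 h2 hi hia

end Pool.Agent.W2helper17.LD
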